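import Pool.Agent.N922.PQ.Stm2

/-!
# The cubic polynomial has no zero in the completion at a prime over `2`

Project PV (helper922), part NR.
-/

set_option autoImplicit false
set_option linter.all false

open Polynomial IsDedekindDomain NumberField WithZero
open scoped Classical

namespace Pool.Agent.N301.PV

open Pool.Agent.N922.PQ

section loc

variable {M R : Type} [Field M] [CommRing R] [IsDedekindDomain R] [Algebra R M]
  [IsFractionRing R M] (w : HeightOneSpectrum R)

theorem vx (x : M) : Valued.v (algebraMap M (w.adicCompletion M) x) = w.valuation M x :=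
  HeightOneSpectrum.valuedAdicCompletion_eq_valuation' w x

theorem near_one (y : w.adicCompletion M) :
    ∃ x : M, Valued.v (y - algebraMap M (w.adicCompletion M) x) < 1 := by
  have hU : {z : w.adicCompletion M | Valued.v z < 1} ∈ nhds (0 : w.adicCompletion M) := by
    rw [Valued.mem_nhds_zero]
    exact ⟨1, fun z hz => by
      have := (Valuation.restrict_lt_iff_lt_embedding _).1 hz
      simpa using this⟩
  have ht : Filter.Tendsto (fun z : w.adicCompletion M => y - z) (nhds y) (nhds 0) := by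
    have h5 : Filter.Tendsto (fun z : w.adicCompletion M => y - z) (nhds y) (nhds (y - y)) :=
      tendsto_const_nhds.sub Filter.tendsto_id
    rwa [sub_self] at h5
  obtain ⟨z, hz, x, rfl⟩ := mem_closure_iff_nhds.1
    (HeightOneSpectrum.denseRange_algebraMap M w y) _ (ht hU)
  exact ⟨x, hz⟩

theorem vint {F : Type} [Field F] (V : Valuation F (WithZero (Multiplicative ℤ))) (n : ℤ) :
    V (n : F) ≤ 1 :=
  (V.mem_integer_iff _).1 (intCast_mem V.integer n)

theorem root_le {F : Type} [Field F] (V : Valuation F (WithZero (Multiplicative ℤ)))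
    {a b x : F} (ha : V a ≤ 1) (hb : V b ≤ 1) (h : x ^ 3 + a * x + b = 0) :
    V x ≤ 1 := by
  by_contra hx
  rw [not_le] at hx
  have h2 : V (a * x + b) ≤ V x := by
    refine (Valuation.map_add _ _ _).trans (max_le ?_ (hb.trans hx.le))
    rw [map_mul]
    calc _ ≤ 1 * V x := mul_le_mul' ha le_rfl
      _ = _ := one_mul _
  have h3 : V (x ^ 3) = V (a * x + b) := by
    have : x ^ 3 = -(a * x + b) := by linear_combination h
    rw [this, Valuation.map_neg]
  rw [← h3, map_pow] at h2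
  have h4 : V x ^ 1 < V x ^ 3 := pow_lt_pow_right₀ hx (by norm_num)
  rw [pow_one] at h4
  exact absurd h2 (not_le.2 h4)

/-- an element of `R` close to a zero -/
theorem exists_r (a b : ℤ) (t : w.adicCompletion M)
    (h : t ^ 3 + (a : w.adicCompletion M) * t + (b : w.adicCompletion M) = 0) :
    ∃ r : R, r ^ 3 + (a : R) * r + (b : R) ∈ w.asIdeal := by
  have ht : Valued.v t ≤ 1 := root_le _ (vint _ a) (vint _ b) h
  obtain ⟨x, hx⟩ := near_one w t
  have hx1 : w.valuation M x ≤ 1 := by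
    rw [← vx]
    have e : algebraMap M (w.adicCompletion M) x =
        t - (t - algebraMap M (w.adicCompletion M) x) := by ring
    rw [e]
    exact (Valuation.map_sub _ _ _).trans (max_le ht hx.le)
  obtain ⟨r, hr⟩ := w.exists_valuation_sub_lt_of_integer (K := M) hx1 1
  have hr1 : w.valuation M (algebraMap R M r - x) < 1 := by exact_mod_cast hr
  refine ⟨r, ?_⟩
  rw [← w.valuation_lt_one_iff_mem (K := M), ← vx]
  obtain ⟨ρ, hρ⟩ : ∃ ρ, ρ = algebraMap M (w.adicCompletion M) (algebraMap R M r) := ⟨_, rfl⟩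
  have e1 : algebraMap M (w.adicCompletion M) (algebraMap R M (r ^ 3 + (a : R) * r + (b : R))) =
      ρ ^ 3 + (a : w.adicCompletion M) * ρ + (b : w.adicCompletion M) := by
    rw [hρ]
    simp only [map_add, map_mul, map_pow, map_intCast]
  have hd : Valued.v (ρ - t) < 1 := by
    have e : ρ - t = algebraMap M (w.adicCompletion M) (algebraMap R M r - x) -
        (t - algebraMap M (w.adicCompletion M) x) := by
      rw [hρ, map_sub]
      ring
    rw [e]
    refine lt_of_le_of_lt (Valuation.map_sub _ _ _) (max_lt ?_ hx)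
    rw [vx]
    exact hr1
  have hρ1 : Valued.v ρ ≤ 1 := by
    have e : ρ = (ρ - t) + t := by ring
    rw [e]
    exact (Valuation.map_add _ _ _).trans (max_le hd.le ht)
  have e2 : ρ ^ 3 + (a : w.adicCompletion M) * ρ + (b : w.adicCompletion M) =
      (ρ - t) * (ρ * ρ + ρ * t + t * t + (a : w.adicCompletion M)) := by
    linear_combination h
  rw [e1, e2, map_mul]
  have hmul : ∀ {x y : w.adicCompletion M}, Valued.v x ≤ 1 → Valued.v y ≤ 1 →
      Valued.v (x * y) ≤ 1 := by
    intro x y hx hy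
    rw [map_mul]
    exact mul_le_one' hx hy
  have h3 : Valued.v (ρ * ρ + ρ * t + t * t + (a : w.adicCompletion M)) ≤ 1 := by
    refine (Valuation.map_add _ _ _).trans (max_le ?_ (vint _ a))
    refine (Valuation.map_add _ _ _).trans (max_le ?_ (hmul ht ht))
    exact (Valuation.map_add _ _ _).trans (max_le (hmul hρ1 hρ1) (hmul hρ1 ht))
  calc _ ≤ Valued.v (ρ - t) * 1 := mul_le_mul' le_rfl h3
    _ = Valued.v (ρ - t) := mul_one _
    _ < 1 := hd

end loc

theorem no_root (M : Type) [Field M] [NumberField M] [IsGalois ℚ M] (n : ℕ)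
    (hn : Module.finrank ℚ M = 2 ^ n) (P : Ideal (𝓞 M)) [hPp : P.IsPrime]
    (h2 : (2 : 𝓞 M) ∈ P) (a b : ℤ) (ha : Odd a) (hb : Odd b) (r : 𝓞 M)
    (hr : r ^ 3 + (a : 𝓞 M) * r + (b : 𝓞 M) ∈ P) : False := by
  have hpmax : (Ideal.span {(2 : ℤ)}).IsMaximal :=
    PrincipalIdealRing.isMaximal_of_irreducible Int.prime_two.irreducible
  have hle : Ideal.span {(2 : ℤ)} ≤ P.under ℤ := by
    rw [Ideal.span_singleton_le_iff_mem, Ideal.under_def, Ideal.mem_comap]
    simpa using h2
  have hne : P.under ℤ ≠ ⊤ := by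
    have : (P.under ℤ).IsPrime := inferInstance
    exact this.ne_top
  have hLies : P.LiesOver (Ideal.span {(2 : ℤ)}) := ⟨hpmax.eq_of_le hne hle⟩
  have hPne : P ≠ ⊥ := by
    rintro rfl
    rw [Ideal.mem_bot] at h2
    exact two_ne_zero h2
  have hPmax : P.IsMaximal := hPp.isMaximal hPne
  have hN : Ideal.absNorm P = 2 ^ P.inertiaDeg ℤ := by
    have h := Ideal.absNorm_eq_pow_inertiaDeg P Int.prime_two
    rw [Ideal.inertiaDeg'_eq_inertiaDeg] at h
    exact h
  have h_main := Ideal.ncard_primesOver_mul_ramificationIdxIn_mul_inertiaDegIn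
    (Ideal.span {(2 : ℤ)}) (𝓞 M) Gal(M/ℚ)
  rw [Ideal.inertiaDegIn_eq_inertiaDeg (Ideal.span {(2 : ℤ)}) P Gal(M/ℚ),
    IsGaloisGroup.card_eq_finrank Gal(M/ℚ) ℚ M, hn] at h_main
  have hf : P.inertiaDeg ℤ ∣ 2 ^ n := by
    rw [← h_main, ← mul_assoc]
    exact dvd_mul_left _ _
  have h3 : ¬ 3 ∣ P.inertiaDeg ℤ := by
    intro h
    have h4 := Nat.Prime.dvd_of_dvd_pow Nat.prime_three (h.trans hf)
    omega
  apply h3
  let _ : Field (𝓞 M ⧸ P) := Ideal.Quotient.field P
  have hcard : Nat.card (𝓞 M ⧸ P) = 2 ^ P.inertiaDeg ℤ := by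
    rw [← hN]
    rfl
  have hfin : Finite (𝓞 M ⧸ P) := by
    apply Nat.finite_of_card_ne_zero
    rw [hcard]
    positivity
  have : Fintype (𝓞 M ⧸ P) := Fintype.ofFinite _
  have h20 : (2 : 𝓞 M ⧸ P) = 0 := by
    have h := Ideal.Quotient.eq_zero_iff_mem.2 h2
    rw [← h]
    rfl
  obtain ⟨z, hz⟩ : ∃ z : 𝓞 M ⧸ P, z = Ideal.Quotient.mk P r := ⟨_, rfl⟩
  have hint : ∀ c : ℤ, Odd c → ((c : ℤ) : 𝓞 M ⧸ P) = 1 := by
    rintro c ⟨d, rfl⟩
    push_cast
    rw [h20, zero_mul, zero_add]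
  have hz0 : z ^ 3 + z + 1 = 0 := by
    have h := Ideal.Quotient.eq_zero_iff_mem.2 hr
    rw [map_add, map_add, map_mul, map_pow, map_intCast, map_intCast, hint a ha, hint b hb,
      one_mul, ← hz] at h
    exact h
  have hz7 : z ^ 7 = 1 := by
    linear_combination (z ^ 4 - z ^ 2 - z + 1) * hz0 + (z ^ 2 - 1) * h20
  have hz1 : z ≠ 1 := by
    rintro h
    rw [h] at hz0
    have : (1 : 𝓞 M ⧸ P) = 0 := by linear_combination hz0 - h20
    exact one_ne_zero this
  have hzne : z ≠ 0 := by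
    rintro h
    rw [h] at hz0
    norm_num at hz0
  have hord : orderOf z = 7 := by
    have : Fact (Nat.Prime 7) := ⟨by norm_num⟩
    exact orderOf_eq_prime hz7 hz1
  have h7 : 7 ∣ 2 ^ P.inertiaDeg ℤ - 1 := by
    rw [← hord, ← hcard, Nat.card_eq_fintype_card]
    exact orderOf_dvd_of_pow_eq_one (FiniteField.pow_card_sub_one_eq_one z hzne)
  have h8 : ((2 : ZMod 7)) ^ P.inertiaDeg ℤ = 1 := by
    have h9 := (ZMod.natCast_eq_zero_iff (2 ^ P.inertiaDeg ℤ - 1) 7).2 h7
    have h10 : 1 ≤ 2 ^ P.inertiaDeg ℤ := Nat.one_le_two_pow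
    rw [Nat.cast_sub h10] at h9
    push_cast at h9
    exact sub_eq_zero.1 h9
  have h11 : orderOf (2 : ZMod 7) = 3 := by
    have : Fact (Nat.Prime 3) := ⟨Nat.prime_three⟩
    exact orderOf_eq_prime (by decide) (by decide)
  rw [← h11]
  exact orderOf_dvd_of_pow_eq_one h8

theorem nr : S_NR := by
  intro M R _ _ _ _ _ _ _ _ n hn w hw a b ha hb t ht
  obtain ⟨r, hr⟩ := exists_r w a b t ht
  let e : R ≃+* 𝓞 M := (IsIntegralClosure.equiv ℤ R M (𝓞 M)).toRingEquiv
  have hp : (w.asIdeal.comap (e.symm : 𝓞 M →+* R)).IsPrime := inferInstance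
  refine no_root M n hn (w.asIdeal.comap (e.symm : 𝓞 M →+* R)) ?_ a b ha hb (e r) ?_
  · rw [Ideal.mem_comap, map_ofNat]
    have h : ((2 : ℤ) : R) ∈ w.asIdeal := hw
    simpa using h
  · rw [Ideal.mem_comap]
    have h : (e.symm : 𝓞 M →+* R) ((e r) ^ 3 + (a : 𝓞 M) * (e r) + (b : 𝓞 M)) =
        r ^ 3 + (a : R) * r + (b : R) := by
      simp
    rw [h]
    exact hr

end Pool.Agent.N301.PV
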